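import Mathlib
import Pool.Agent.Helper35.CD.Defs
import Pool.Agent.Helper35.CD.Quat
import Pool.Agent.Helper94.CoD.Defs

set_option autoImplicit false

namespace Pool.Agent.Results.MP_923d2b_al.AbelianMaximal

open Pool.Agent.Helper94.CoD Pool.Agent.Helper35.CD

/-- Classification of the finite co-Dedekindian `p`-groups with an abelian subgroup of index `p`:
they are the cyclic groups and the groups `GG p k` for `k ≥ 1`, of order `p ^ (k * (p - 1) + 2)`,
which are nonabelian, pairwise not isomorphic and have a nontrivial central automorphism; for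
`p = 2` they are the generalized quaternion groups. -/
theorem result :
    (∀ (p : ℕ) [Fact p.Prime] (G : Type) [Group G] [Finite G], IsPGroup p G →
      (∃ A : Subgroup G, A.index = p ∧ ∀ x ∈ A, ∀ y ∈ A, x * y = y * x) →
      (CoDedekindian G ↔ IsCyclic G ∨ ∃ k : ℕ, 1 ≤ k ∧ Nonempty (G ≃* GG p k))) ∧
    (∀ (p : ℕ) [Fact p.Prime] (k : ℕ), 1 ≤ k → Nat.card (GG p k) = p ^ (k * (p - 1) + 2) ∧
      (∃ a b : GG p k, a * b ≠ b * a) ∧
      (∃ A : Subgroup (GG p k), A.index = p ∧ ∀ x ∈ A, ∀ y ∈ A, x * y = y * x) ∧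
      CoDedekindian (GG p k) ∧
      (∃ α : GG p k ≃* GG p k, (∀ g, g⁻¹ * α g ∈ Subgroup.center (GG p k)) ∧
        α ≠ MulEquiv.refl (GG p k))) ∧
    (∀ (p : ℕ) [Fact p.Prime] (k l : ℕ), 1 ≤ k → 1 ≤ l →
      Nonempty (GG p k ≃* GG p l) → k = l) ∧
    (∀ k : ℕ, 1 ≤ k → Nonempty (GG 2 k ≃* QuaternionGroup (2 ^ k))) :=
  ⟨fun p _ => (classification p).2, fun p _ => (classification p).1,
    fun _ _ _ _ hk hl h => eq_of_iso hk hl h, quat⟩

end Pool.Agent.Results.MP_923d2b_al.AbelianMaximal
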