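import Mathlib
import Pool.Agent.Helper94.CoD.Defs
import Pool.Agent.Helper62.CPD.Defs
import Pool.Agent.Helper62.CPD.Fin

set_option autoImplicit false

namespace Pool.Agent.Results.MP_923d2b_al.PowerfulGroups

open Pool.Agent.Helper62.CPD

/-- A finite `p`-group that is powerful, or (for odd `p`) whose exponent is as large as its lower
exponent-`p` central series allows, is co-Dedekindian if and only if it is cyclic. -/
theorem result (p : ℕ) [Fact p.Prime] (G : Type) [Group G] [Finite G] (hG : IsPGroup p G)
    (h : Powerful p G ∨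
      (p ≠ 2 ∧ ∃ e : ℕ, lowerP p G (e + 1) = ⊥ ∧ ∃ y : G, y ^ p ^ e ≠ 1)) :
    Pool.Agent.Helper94.CoD.CoDedekindian G ↔ IsCyclic G :=
  final p G hG h

end Pool.Agent.Results.MP_923d2b_al.PowerfulGroups
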