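import Mathlib
import Pool.Agent.Helper77.CDReg

set_option autoImplicit false

namespace Pool.Agent.Results.MP_923d2b_al.RegularCyclic

open Pool.Agent.Helper77.CD

/-- A finite `p`-group that is regular in the sense of P. Hall is co-Dedekindian if and only if
it is cyclic. -/
theorem result (p : ℕ) [Fact p.Prime] (G : Type*) [Group G] [Finite G] (hG : IsPGroup p G)
    (hreg : IsRegular p G) : IsCoDedekindian G ↔ IsCyclic G :=
  ⟨isCyclic_of_isCoDedekindian hG hreg, isCoDedekindian_of_isCyclic⟩

end Pool.Agent.Results.MP_923d2b_al.RegularCyclic
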