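import Mathlib
import Pool.Agent.Helper94.CoD.Univ
import Pool.Agent.Helper94.CoD.Crit
import Pool.Agent.Helper94.CoD.Defs

set_option autoImplicit false

namespace Pool.Agent.Results.MP_923d2b_al.Universal

open Pool.Agent.Helper94.CoD

/-- Description of the finite co-Dedekindian `p`-groups: an exact criterion in terms of the power
map, and universality (every finite `p`-group is a quotient and a subgroup of a nonabelian
co-Dedekindian `p`-group with centre of order `p`). -/
theorem result (p : ℕ) [Fact p.Prime] :
    (∀ (G : Type) [Group G] [Finite G], IsPGroup p G →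
      (CoDedekindian G ↔ IsCyclic G ∨
        ((∃ a b : G, a * b ≠ b * a) ∧ IsCyclic (Subgroup.center G) ∧
          ∀ x : G, x ^ Nat.card (Subgroup.zpowers x ⊓ Subgroup.center G : Subgroup G) ∈
            powComm G (Nat.card (Subgroup.center G))))) ∧
    (∀ (H : Type) [Group H] [Finite H], IsPGroup p H →
      ∃ (G : Type) (_ : Group G) (_ : Finite G), IsPGroup p G ∧ CoDedekindian G ∧
        (∃ α : G ≃* G, (∀ g, g⁻¹ * α g ∈ Subgroup.center G) ∧ α ≠ MulEquiv.refl G) ∧
        (∃ a b : G, a * b ≠ b * a) ∧ Nat.card (Subgroup.center G) = p ∧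
        (∃ f : G →* H, Function.Surjective f) ∧ (∃ f : H →* G, Function.Injective f)) :=
  ⟨fun _ _ _ hG => criterion hG, fun H _ _ hH => universal p H hH⟩

end Pool.Agent.Results.MP_923d2b_al.Universal
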